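import Pool.Agent.Helper34.PN.GAPF

/-!
# Linear nets from a finite two-colour threshold

Every family of sets `S` in `ℝ^d` with `m_2(S)` at most `m` has hitting sets whose size is at
most a constant `C(m)` times the fractional bound.
-/

namespace Pool.Agent.Helper34.Arch.LinearNets

open Finset

/-- `PolyAt F k t`: every finite point set `P` has a colouring with `k` colours in which every
member of `F` with at least `t` points of `P` contains points of `P` of all `k` colours. -/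
def PolyAt {d : ℕ} (F : Set (Set (EuclideanSpace ℝ (Fin d)))) (k t : ℕ) : Prop :=
  ∀ P : Finset (EuclideanSpace ℝ (Fin d)), ∃ c : EuclideanSpace ℝ (Fin d) → Fin k,
    ∀ S ∈ F, t ≤ ((P : Set (EuclideanSpace ℝ (Fin d))) ∩ S).ncard →
      ∀ i : Fin k, ∃ p ∈ P, p ∈ S ∧ c p = i

/-- `m_k(F)`: the least `t` with `PolyAt F k t`, and infinity if there is none. -/
noncomputable def mk {d : ℕ} (F : Set (Set (EuclideanSpace ℝ (Fin d)))) (k : ℕ) : ℕ∞ :=
  sInf {t : ℕ∞ | ∃ n : ℕ, t = (n : ℕ∞) ∧ PolyAt F k n}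

theorem polyAt_mono {d : ℕ} {F : Set (Set (EuclideanSpace ℝ (Fin d)))} {k t t' : ℕ}
    (h : PolyAt F k t) (ht : t ≤ t') : PolyAt F k t' := by
  intro P
  obtain ⟨c, hc⟩ := h P
  exact ⟨c, fun S hS hn => hc S hS (ht.trans hn)⟩

theorem polyAt_of_mk_le {d : ℕ} {F : Set (Set (EuclideanSpace ℝ (Fin d)))} {k m : ℕ}
    (h : mk F k ≤ (m : ℕ∞)) : PolyAt F k m := by
  by_contra hcon
  have h1 : ((m + 1 : ℕ) : ℕ∞) ≤ mk F k := by
    refine le_sInf ?_
    rintro t ⟨n, rfl, hn⟩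
    have h2 : m + 1 ≤ n := by
      by_contra h3
      exact hcon (polyAt_mono hn (by omega))
    exact_mod_cast h2
  have h4 : ((m + 1 : ℕ) : ℕ∞) ≤ (m : ℕ∞) := h1.trans h
  have h5 : m + 1 ≤ m := by exact_mod_cast h4
  omega

/-- For every `m` there is a constant `C`, depending only on `m`, such that for every family `F`
of sets in any `ℝ^d` with `m_2(F) ≤ m`, every finite point set `P`, every nonnegative weight `w`
on `P` and every threshold `t > 0` there is a set `T ⊆ P` with `t |T| ≤ C w(P)` which meets every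
member of `F` of weight at least `t`. -/
theorem result : ∀ m : ℕ, ∃ C : ℕ, 1 ≤ C ∧ ∀ (d : ℕ)
    (F : Set (Set (EuclideanSpace ℝ (Fin d)))), mk F 2 ≤ (m : ℕ∞) →
    ∀ (P : Finset (EuclideanSpace ℝ (Fin d))) (w : EuclideanSpace ℝ (Fin d) → ℝ) (t : ℝ),
      (∀ p ∈ P, 0 ≤ w p) → 0 < t →
      ∃ T : Finset (EuclideanSpace ℝ (Fin d)), T ⊆ P ∧
        t * (T.card : ℝ) ≤ (C : ℝ) * ∑ p ∈ P, w p ∧
        ∀ S ∈ F, t ≤ ∑ p ∈ P, S.indicator w p → ∃ p ∈ T, p ∈ S := by
  classical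
  intro m
  obtain ⟨C, hC1, hC⟩ := Pool.Agent.Helper34.PN.gap (max m 2) (le_max_right _ _)
  refine ⟨C, hC1, ?_⟩
  intro d F hF P w t hw ht
  have hpoly : PolyAt F 2 (max m 2) := polyAt_mono (polyAt_of_mk_le hF) (le_max_left _ _)
  set H : Finset (Finset (EuclideanSpace ℝ (Fin d))) :=
    P.powerset.filter (fun E => ∃ S ∈ F, E = P.filter (fun p => p ∈ S)) with hH
  have hgood : Pool.Agent.Helper34.PN.Good P H (max m 2) := by
    intro Y hY
    obtain ⟨c, hc⟩ := hpoly Y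
    refine ⟨Y.filter (fun p => c p = 0), filter_subset _ _, ?_⟩
    intro E hE hcard
    obtain ⟨hEP, S, hS, rfl⟩ := mem_filter.1 hE
    have h1 : (((P.filter (fun p => p ∈ S)) ∩ Y : Finset (EuclideanSpace ℝ (Fin d))) :
        Set (EuclideanSpace ℝ (Fin d))) = (Y : Set (EuclideanSpace ℝ (Fin d))) ∩ S := by
      ext p
      simp only [coe_inter, coe_filter, Set.mem_inter_iff, Set.mem_ofPred_eq, mem_coe]
      constructor
      · rintro ⟨⟨_, h2⟩, h3⟩
        exact ⟨h3, h2⟩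
      · rintro ⟨h3, h2⟩
        exact ⟨⟨hY h3, h2⟩, h3⟩
    have h2 : max m 2 ≤ ((Y : Set (EuclideanSpace ℝ (Fin d))) ∩ S).ncard := by
      rw [← h1, Set.ncard_coe_finset]
      exact hcard
    obtain ⟨p0, hp0Y, hp0S, hp0c⟩ := hc S hS h2 0
    obtain ⟨p1, hp1Y, hp1S, hp1c⟩ := hc S hS h2 1
    constructor
    · exact ⟨p0, mem_inter.2 ⟨mem_filter.2 ⟨hY hp0Y, hp0S⟩, mem_filter.2 ⟨hp0Y, hp0c⟩⟩⟩
    · refine ⟨p1, mem_inter.2 ⟨mem_filter.2 ⟨hY hp1Y, hp1S⟩, mem_sdiff.2 ⟨hp1Y, ?_⟩⟩⟩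
      intro h3
      have h4 := (mem_filter.1 h3).2
      rw [hp1c] at h4
      exact absurd h4 (by decide)
  obtain ⟨T, hTP, hTc, hT⟩ := hC _ P H (fun p => w p / t) hgood
    (fun p hp => div_nonneg (hw p hp) ht.le)
  refine ⟨T, hTP, ?_, ?_⟩
  · have h1 : ∑ p ∈ P, w p / t = (∑ p ∈ P, w p) / t := by rw [sum_div]
    rw [h1, mul_div_assoc', le_div_iff₀ ht] at hTc
    linarith
  · intro S hS hSw
    have hE : P.filter (fun p => p ∈ S) ∈ H :=
      mem_filter.2 ⟨mem_powerset.2 (filter_subset _ _), S, hS, rfl⟩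
    have h1 : 1 ≤ ∑ x ∈ P.filter (fun x => x ∈ P.filter (fun p => p ∈ S)), w x / t := by
      rw [← sum_div, le_div_iff₀ ht, one_mul]
      refine hSw.trans (le_of_eq ?_)
      have h2 : P.filter (fun x => x ∈ P.filter (fun p => p ∈ S)) = P.filter (fun p => p ∈ S) := by
        ext p
        simp only [mem_filter]
        tauto
      rw [h2, sum_filter]
      exact sum_congr rfl fun p _ => by rw [Set.indicator_apply]
    obtain ⟨p, hp⟩ := hT _ hE h1
    have hp' := mem_inter.1 hp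
    exact ⟨p, hp'.2, (mem_filter.1 hp'.1).2⟩

end Pool.Agent.Helper34.Arch.LinearNets
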